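import Mathlib

/-!
# Beilinson's conjecture when the Deligne cohomology has dimension one
-/

set_option autoImplicit false

namespace Pool.Agent.X264.BK

universe u

/-- Objects `C` (genus one curves, singular K3 surfaces), the motivic cohomology `V C`, the real number
`Π(α)`, the number `L C` (`L'(E, -1)`, `L'(h²_tr, -1)`), and the relation `Same C C'`: the relevant
motives of `C` and `C'` are isomorphic. -/
structure Theory where
  Ob : Type u
  V : Ob → Type u
  [acg : ∀ C, AddCommGroup (V C)]
  [mod : ∀ C, Module ℚ (V C)]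
  period : ∀ C, V C →ₗ[ℚ] ℝ
  L : Ob → ℝ
  Same : Ob → Ob → Prop

attribute [instance] Theory.acg Theory.mod

namespace Theory

variable (T : Theory.{u})

/-- the regulator paired with the generator, `Π(α)` -/
noncomputable def reg (C : T.Ob) (α : T.V C) : ℝ := T.period C α

/-- `x` is a nonzero rational multiple of `L C`. -/
def IsRationalMultiple (C : T.Ob) (x : ℝ) : Prop := ∃ a : ℚ, a ≠ 0 ∧ x = a * T.L C

/-- Q1 for `C`: for all `α ≠ 0`, `Π(α)` is a nonzero rational multiple of `L C`. -/
def Holds (C : T.Ob) : Prop := ∀ α : T.V C, α ≠ 0 → T.IsRationalMultiple C (T.reg C α)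

/-- The motivic cohomology is zero or spanned by one `α` with `Π(α)` a nonzero rational multiple of
`L C`. -/
def HasOneElement (C : T.Ob) : Prop :=
  (∀ β : T.V C, β = 0) ∨
    ∃ α : T.V C, T.IsRationalMultiple C (T.reg C α) ∧ ∀ β : T.V C, ∃ r : ℚ, β = r • α

/-- `L C ≠ 0`. -/
def HasNonzero : Prop := ∀ C, T.L C ≠ 0

/-- Isomorphic motives: same `L C`, isomorphic motivic cohomology, and the numbers `Π` differ by a
nonzero rational factor. -/
def HasTransport : Prop :=
  ∀ C C', T.Same C C' → T.L C = T.L C' ∧ ∃ (e : T.V C → T.V C') (q : ℚ), q ≠ 0 ∧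
    (∀ α, e α = 0 → α = 0) ∧ ∀ α, T.reg C' (e α) = q * T.reg C α

/-- Each object is related to one in the class `R`. -/
def IsFull (R : T.Ob → Prop) : Prop := ∀ C, ∃ C', R C' ∧ T.Same C C'

variable {T}

/-- Q1 for `C` in terms of one element -/
theorem holds_iff (hL : T.HasNonzero) (C : T.Ob) : T.Holds C ↔ T.HasOneElement C := by
  constructor
  · intro h
    by_cases h0 : ∀ β : T.V C, β = 0
    · exact Or.inl h0
    · right
      push Not at h0
      obtain ⟨α, hα⟩ := h0
      refine ⟨α, h α hα, fun β => ?_⟩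
      obtain ⟨a, ha, hα'⟩ := h α hα
      by_cases hβ : β = 0
      · exact ⟨0, by rw [hβ, zero_smul]⟩
      obtain ⟨b, -, hβ'⟩ := h β hβ
      refine ⟨b / a, ?_⟩
      by_contra hne
      have h1 : β - (b / a) • α ≠ 0 := fun hc => hne (sub_eq_zero.1 hc)
      obtain ⟨c, hc, hc'⟩ := h _ h1
      have h2 : T.reg C (β - (b / a) • α) = 0 := by
        change T.period C (β - (b / a) • α) = 0
        have e1 : T.period C α = a * T.L C := hα'
        have e2 : T.period C β = b * T.L C := hβ'
        have ha' : (a : ℝ) ≠ 0 := by exact_mod_cast ha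
        rw [map_sub, map_smul, e1, e2, Rat.smul_def]
        push_cast
        field_simp
        ring
      rw [h2] at hc'
      have hc'' : (c : ℝ) ≠ 0 := by exact_mod_cast hc
      exact mul_ne_zero hc'' (hL C) hc'.symm
  · rintro (h | ⟨α, ⟨a, ha, hα⟩, hspan⟩) β hβ
    · exact absurd (h β) hβ
    · obtain ⟨r, rfl⟩ := hspan β
      have hr : r ≠ 0 := fun h0 => hβ (by rw [h0, zero_smul])
      refine ⟨r * a, mul_ne_zero hr ha, ?_⟩
      change T.period C (r • α) = _
      have e1 : T.period C α = a * T.L C := hα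
      rw [map_smul, e1, Rat.smul_def]
      push_cast
      ring

/-- transport -/
theorem holds_of_same (hT : T.HasTransport) {C C' : T.Ob} (h : T.Same C C') (hC : T.Holds C') :
    T.Holds C := by
  obtain ⟨hL, e, q, hq, he, hr⟩ := hT C C' h
  intro α hα
  obtain ⟨a, ha, h1⟩ := hC (e α) fun h0 => hα (he α h0)
  refine ⟨a / q, div_ne_zero ha hq, ?_⟩
  rw [hr] at h1
  have hq' : (q : ℝ) ≠ 0 := by exact_mod_cast hq
  rw [← hL] at h1
  push_cast
  field_simp
  rw [mul_comm]
  exact h1

/-- one object in each class suffices -/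
theorem main (hL : T.HasNonzero) (hT : T.HasTransport) (R : T.Ob → Prop) (hR : T.IsFull R) :
    (∀ C, T.Holds C) ↔ ∀ C, R C → T.HasOneElement C := by
  refine ⟨fun h C _ => (holds_iff hL C).1 (h C), fun h C => ?_⟩
  obtain ⟨C', hC', hs⟩ := hR C
  exact holds_of_same hT hs ((holds_iff hL C').2 (h C' hC'))

end Theory

end Pool.Agent.X264.BK
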